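import Mathlib
import Pool.Agent.H558R3.Kirch1
import Pool.Agent.H558R3.Kirch2

/-!
# A positive fraction version of Kirchberger's theorem

MP_ff3a4f_co, Q1: the answer is yes.
-/

open Finset Module Filter Topology
open scoped InnerProductSpace

namespace Pool.Agent.Results.MP_ff3a4f_co.PositiveFraction

open Pool.Agent.H558R3.Kirch

/-- Some hyperplane `{x | ⟪u, x⟫ = c}`, `u ≠ 0`, has `P` in one of its open half-spaces and `Q` in
the other; an empty set is separated from any set. -/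
def Separated {d : ℕ} (P Q : Finset (EuclideanSpace ℝ (Fin d))) : Prop :=
  P = ∅ ∨ Q = ∅ ∨ ∃ (u : EuclideanSpace ℝ (Fin d)) (c : ℝ), u ≠ 0 ∧
    (∀ p ∈ P, c < ⟪u, p⟫_ℝ) ∧ (∀ q ∈ Q, ⟪u, q⟫_ℝ < c)

/-- General position: any at most `d + 1` of the points are affinely independent (for a set with at
least `d + 1` points this says that no `d + 1` of them lie on a common hyperplane). -/
def GeneralPosition {d : ℕ} (V : Finset (EuclideanSpace ℝ (Fin d))) : Prop :=
  ∀ T ⊆ V, T.card ≤ d + 1 → AffineIndependent ℝ ((↑) : T → EuclideanSpace ℝ (Fin d))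

open Classical in
/-- The good `(d+2)`-element subsets of `A ∪ B`. -/
noncomputable def goodSubsets {d : ℕ} (A B : Finset (EuclideanSpace ℝ (Fin d))) :
    Finset (Finset (EuclideanSpace ℝ (Fin d))) :=
  (powersetCard (d + 2) (A ∪ B)).filter fun S => Separated (A ∩ S) (B ∩ S)

section aux

variable {d : ℕ}

/-- the space of affine functionals -/
abbrev W (d : ℕ) := WithLp 2 (EuclideanSpace ℝ (Fin d) × ℝ)

lemma finrank_W : finrank ℝ (W d) = d + 1 := by
  rw [LinearEquiv.finrank_eq (WithLp.linearEquiv 2 ℝ (EuclideanSpace ℝ (Fin d) × ℝ)),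
    Module.finrank_prod, finrank_euclideanSpace_fin, Module.finrank_self]

open Classical in
/-- the vector of the linear inequality attached to a labelled point -/
noncomputable def phi (A : Finset (EuclideanSpace ℝ (Fin d))) (x : EuclideanSpace ℝ (Fin d)) :
    W d := if x ∈ A then WithLp.toLp 2 (x, -1) else WithLp.toLp 2 (-x, 1)

lemma inner_phi_mem {A : Finset (EuclideanSpace ℝ (Fin d))} {x : EuclideanSpace ℝ (Fin d)}
    (hx : x ∈ A) (w : W d) : ⟪w, phi A x⟫_ℝ = ⟪w.fst, x⟫_ℝ - w.snd := by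
  rw [phi, if_pos hx, WithLp.prod_inner_apply]
  simp [sub_eq_add_neg]

lemma inner_phi_not_mem {A : Finset (EuclideanSpace ℝ (Fin d))} {x : EuclideanSpace ℝ (Fin d)}
    (hx : x ∉ A) (w : W d) : ⟪w, phi A x⟫_ℝ = w.snd - ⟪w.fst, x⟫_ℝ := by
  rw [phi, if_neg hx, WithLp.prod_inner_apply]
  simp only [inner_neg_right]
  simp [sub_eq_add_neg, add_comm]

lemma separated_of_sol {A P Q : Finset (EuclideanSpace ℝ (Fin d))} (hP : P ⊆ A)
    (hQ : Disjoint A Q) (w : W d) (hwP : ∀ x ∈ P, 0 < ⟪w, phi A x⟫_ℝ)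
    (hwQ : ∀ x ∈ Q, 0 < ⟪w, phi A x⟫_ℝ) : Separated P Q := by
  rcases P.eq_empty_or_nonempty with h | ⟨p, hp⟩
  · exact Or.inl h
  rcases Q.eq_empty_or_nonempty with h | ⟨q, hq⟩
  · exact Or.inr (Or.inl h)
  have hP' : ∀ x ∈ P, w.snd < ⟪w.fst, x⟫_ℝ := fun x hx => by
    have := hwP x hx
    rw [inner_phi_mem (hP hx)] at this
    linarith
  have hQ' : ∀ x ∈ Q, ⟪w.fst, x⟫_ℝ < w.snd := fun x hx => by
    have := hwQ x hx
    rw [inner_phi_not_mem (fun h => disjoint_left.1 hQ h hx)] at this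
    linarith
  refine Or.inr (Or.inr ⟨w.fst, w.snd, ?_, hP', hQ'⟩)
  intro h0
  have h1 := hP' p hp
  have h2 := hQ' q hq
  rw [h0, inner_zero_left] at h1 h2
  linarith

lemma sol_of_separated {A B S : Finset (EuclideanSpace ℝ (Fin d))} [DecidableEq
    (EuclideanSpace ℝ (Fin d))]
    (hS : S ⊆ A ∪ B) (h : Separated (A ∩ S) (B ∩ S)) :
    ∃ w : W d, ∀ x ∈ S, 0 < ⟪w, phi A x⟫_ℝ := by
  rcases h with h | h | ⟨u, c, -, h1, h2⟩
  · refine ⟨WithLp.toLp 2 (0, 1), fun x hx => ?_⟩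
    have hxA : x ∉ A := fun hA => by
      have : x ∈ A ∩ S := mem_inter.2 ⟨hA, hx⟩
      rw [h] at this
      exact absurd this (notMem_empty x)
    rw [inner_phi_not_mem hxA]
    simp
  · refine ⟨WithLp.toLp 2 (0, -1), fun x hx => ?_⟩
    have hxA : x ∈ A := by
      rcases mem_union.1 (hS hx) with hA | hB
      · exact hA
      · have : x ∈ B ∩ S := mem_inter.2 ⟨hB, hx⟩
        rw [h] at this
        exact absurd this (notMem_empty x)
    rw [inner_phi_mem hxA]
    simp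
  · refine ⟨WithLp.toLp 2 (u, c), fun x hx => ?_⟩
    by_cases hA : x ∈ A
    · rw [inner_phi_mem hA]
      have := h1 x (mem_inter.2 ⟨hA, hx⟩)
      simpa using this
    · have hB : x ∈ B := (mem_union.1 (hS hx)).resolve_left hA
      rw [inner_phi_not_mem hA]
      have := h2 x (mem_inter.2 ⟨hB, hx⟩)
      simpa using this

lemma separated_of_affineIndependent {A B : Finset (EuclideanSpace ℝ (Fin d))} [DecidableEq
    (EuclideanSpace ℝ (Fin d))] (hAB : Disjoint A B)
    (h : AffineIndependent ℝ ((↑) : (A ∪ B : Finset (EuclideanSpace ℝ (Fin d))) →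
      EuclideanSpace ℝ (Fin d))) : Separated A B := by
  rcases A.eq_empty_or_nonempty with h0 | ⟨a, ha⟩
  · exact Or.inl h0
  rcases B.eq_empty_or_nonempty with h0 | ⟨b, hb⟩
  · exact Or.inr (Or.inl h0)
  have hint := AffineIndependent.convexHull_inter (R := ℝ) (s := A ∪ B) h
    (t₁ := A) (t₂ := B) subset_union_left subset_union_right
  have hemp : ((A : Set (EuclideanSpace ℝ (Fin d))) ∩ B) = ∅ := by
    rw [← coe_inter, disjoint_iff_inter_eq_empty.1 hAB, coe_empty]
  rw [hemp, convexHull_empty] at hint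
  obtain ⟨f, u, v, hf1, huv, hf2⟩ := geometric_hahn_banach_compact_closed
    (convex_convexHull ℝ (A : Set (EuclideanSpace ℝ (Fin d))))
    (A.finite_toSet.isCompact_convexHull ℝ)
    (convex_convexHull ℝ (B : Set (EuclideanSpace ℝ (Fin d))))
    (B.finite_toSet.isClosed_convexHull ℝ)
    (Set.disjoint_iff_inter_eq_empty.2 hint.symm)
  have key : ∀ x, ⟪(InnerProductSpace.toDual ℝ (EuclideanSpace ℝ (Fin d))).symm f, x⟫_ℝ = f x :=
    fun x => InnerProductSpace.toDual_symm_apply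
  refine Or.inr (Or.inr ⟨-(InnerProductSpace.toDual ℝ (EuclideanSpace ℝ (Fin d))).symm f, -v,
    ?_, ?_, ?_⟩)
  · intro h0
    rw [neg_eq_zero] at h0
    have h1 := hf1 a (subset_convexHull ℝ _ (mem_coe.2 ha))
    have h2 := hf2 b (subset_convexHull ℝ _ (mem_coe.2 hb))
    rw [← key, h0, inner_zero_left] at h1 h2
    linarith
  · intro p hp
    rw [inner_neg_left, key]
    have h1 := hf1 p (subset_convexHull ℝ _ (mem_coe.2 hp))
    linarith
  · intro q hq
    rw [inner_neg_left, key]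
    have h2 := hf2 q (subset_convexHull ℝ _ (mem_coe.2 hq))
    linarith

/-- the statement for fixed `ε`, `δ` -/
def Stmt (d : ℕ) (ε δ : ℝ) : Prop :=
  ∀ (N : ℕ) (A B : Finset (EuclideanSpace ℝ (Fin d))), Disjoint A B → A.card = N → B.card = N →
    (d + 2 ≤ 2 * N ∨ (2 * N < d + 2 ∧ Separated A B)) →
    (1 - ε) * ((2 * N).choose (d + 2) : ℝ) ≤ (goodSubsets A B).card →
    ∃ A' ⊆ A, ∃ B' ⊆ B, Separated A' B' ∧ (1 - δ) * N ≤ A'.card ∧ (1 - δ) * N ≤ B'.card

lemma stmt_mono {d : ℕ} {ε δ δ' : ℝ} (h : δ ≤ δ') (hs : Stmt d ε δ) : Stmt d ε δ' := by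
  intro N A B hAB hA hB hgp hgood
  obtain ⟨A', hA', B', hB', hsep, h1, h2⟩ := hs N A B hAB hA hB hgp hgood
  have hN : (0 : ℝ) ≤ N := Nat.cast_nonneg N
  exact ⟨A', hA', B', hB', hsep, by nlinarith, by nlinarith⟩

lemma stmt_one {d : ℕ} {ε δ : ℝ} (h : 1 ≤ δ) : Stmt d ε δ := by
  intro N A B hAB hA hB hgp hgood
  have hN : (0 : ℝ) ≤ N := Nat.cast_nonneg N
  exact ⟨∅, empty_subset _, ∅, empty_subset _, Or.inl rfl, by simp; nlinarith, by simp; nlinarith⟩

theorem core (d : ℕ) (δ : ℝ) (hδ : 0 < δ) : ∃ ε₀ : ℝ, 0 < ε₀ ∧ ∀ ε ≤ ε₀, Stmt d ε δ := by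
  classical
  rcases le_or_gt 1 δ with h1 | h1
  · exact ⟨1, one_pos, fun ε _ => stmt_one h1⟩
  obtain ⟨M, hKM, hDM, hM⟩ := exists_sample_size (d + 2) (d + 1) (δ / 2) (by linarith) (by linarith)
  have hcM : (0 : ℝ) < M.choose (d + 2) := by exact_mod_cast Nat.choose_pos hKM
  refine ⟨1 / (2 * M.choose (d + 2)), by positivity, fun ε hε => ?_⟩
  have hεM : ε * M.choose (d + 2) ≤ 1 / 2 := by
    calc ε * M.choose (d + 2) ≤ 1 / (2 * M.choose (d + 2)) * M.choose (d + 2) :=
          mul_le_mul_of_nonneg_right hε hcM.le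
      _ = 1 / 2 := by field_simp
  intro N A B hAB hA hB hgp hgood
  have hN0 : (0 : ℝ) ≤ N := Nat.cast_nonneg N
  have htriv : Separated A B →
      ∃ A' ⊆ A, ∃ B' ⊆ B, Separated A' B' ∧ (1 - δ) * N ≤ A'.card ∧ (1 - δ) * N ≤ B'.card := by
    intro hs
    refine ⟨A, Subset.refl _, B, Subset.refl _, hs, ?_, ?_⟩
    · rw [hA]; nlinarith
    · rw [hB]; nlinarith
  rcases hgp with hN | ⟨hN, hs⟩
  swap
  · exact htriv hs
  set 𝒱 := A ∪ B with h𝒱
  have hcard : 𝒱.card = 2 * N := by rw [h𝒱, card_union_of_disjoint hAB, hA, hB]; ring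
  -- the bad sets
  set 𝓑 := (powersetCard (d + 2) 𝒱).filter fun S => ¬ Separated (A ∩ S) (B ∩ S) with h𝓑
  have hsum : (goodSubsets A B).card + 𝓑.card = (2 * N).choose (d + 2) := by
    have h2 := card_filter_add_card_filter_not (s := powersetCard (d + 2) 𝒱)
      (fun S => Separated (A ∩ S) (B ∩ S))
    rw [card_powersetCard, hcard] at h2
    rw [← h2]
    rfl
  have h𝓑c : (𝓑.card : ℝ) ≤ ε * (𝒱.card.choose (d + 2)) := by
    have : ((goodSubsets A B).card : ℝ) + 𝓑.card = (2 * N).choose (d + 2) := by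
      exact_mod_cast hsum
    rw [hcard]
    linarith
  -- sets without bad subset are strictly separated
  have hgoodS : ∀ S ⊆ 𝒱, d + 2 ≤ S.card → (∀ T ∈ 𝓑, ¬ T ⊆ S) →
      ∃ w : W d, ∀ x ∈ S, 0 < ⟪w, phi A x⟫_ℝ := by
    intro S hS hSc hno
    apply exists_sol_of_small (phi A) S (by rw [finrank_W]; exact hSc)
    intro T hTS hTc
    rw [finrank_W] at hTc
    have hTV : T ⊆ 𝒱 := hTS.trans hS
    have : T ∉ 𝓑 := fun hT => hno T hT hTS
    rw [h𝓑, mem_filter, mem_powersetCard] at this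
    push Not at this
    exact sol_of_separated hTV (this ⟨hTV, hTc⟩)
  have hsepV : (∃ w : W d, ∀ x ∈ 𝒱, 0 < ⟪w, phi A x⟫_ℝ) → Separated A B := by
    rintro ⟨w, hw⟩
    exact separated_of_sol (Subset.refl A) hAB w (fun x hx => hw x (mem_union_left _ hx))
      (fun x hx => hw x (mem_union_right _ hx))
  rcases lt_or_ge (2 * N) M with hNM | hNM
  · -- few points: no bad sets at all
    apply htriv
    apply hsepV
    apply hgoodS 𝒱 (Subset.refl _) (by rw [hcard]; exact hN)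
    have h0 : 𝓑.card = 0 := by
      by_contra hne
      have h1 : (1 : ℝ) ≤ 𝓑.card := by exact_mod_cast Nat.one_le_iff_ne_zero.2 hne
      have hε0 : 0 ≤ ε := by
        by_contra hneg
        push Not at hneg
        have h3 : (0 : ℝ) ≤ (𝒱.card.choose (d + 2) : ℝ) := by positivity
        nlinarith
      have h2 : ((2 * N).choose (d + 2) : ℝ) ≤ M.choose (d + 2) := by
        exact_mod_cast Nat.choose_le_choose (d + 2) hNM.le
      rw [hcard] at h𝓑c
      have h3 := mul_le_mul_of_nonneg_left h2 hε0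
      linarith
    intro T hT
    rw [card_eq_zero] at h0
    rw [h0] at hT
    exact absurd hT (notMem_empty T)
  -- many points: sampling
  let Bad : Finset (EuclideanSpace ℝ (Fin d)) → Finset (EuclideanSpace ℝ (Fin d)) := fun T =>
    𝒱.filter fun x => ¬ 1 ≤ ⟪sol (phi A) T, phi A x⟫_ℝ
  obtain ⟨T, hT, hTbad⟩ := sampling 𝒱 (d + 2) (d + 1) M hKM hDM (by rw [hcard]; exact hNM) ε (δ / 2)
    (by linarith) (by linarith) hεM hM 𝓑 (filter_subset _ _) h𝓑c Bad (by
      intro S hS hno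
      obtain ⟨hSV, hSc⟩ := mem_powersetCard.1 hS
      have h1 := hgoodS S hSV (by rw [hSc]; exact hKM) hno
      obtain ⟨T, hTS, hTc, hsol⟩ := exists_compression (phi A) S
        (feas_nonempty_of_pos (phi A) S h1) (by rw [finrank_W, hSc]; exact hDM)
      refine ⟨T, hTS, by rw [hTc, finrank_W], ?_⟩
      rw [disjoint_left]
      intro x hx hxB
      exact (mem_filter.1 hxB).2 (hsol x hx))
  rw [inter_eq_right.2 (filter_subset _ _), hcard] at hTbad
  have hw : ∀ x ∈ 𝒱, x ∉ Bad T → 0 < ⟪sol (phi A) T, phi A x⟫_ℝ := by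
    intro x hx hxB
    have : ¬ ¬ 1 ≤ ⟪sol (phi A) T, phi A x⟫_ℝ := fun hn => hxB (mem_filter.2 ⟨hx, hn⟩)
    push Not at this
    linarith
  refine ⟨A \ Bad T, sdiff_subset, B \ Bad T, sdiff_subset, ?_, ?_, ?_⟩
  · apply separated_of_sol sdiff_subset (disjoint_of_subset_right sdiff_subset hAB)
      (sol (phi A) T)
    · intro x hx
      rw [Finset.mem_sdiff] at hx
      exact hw x (mem_union_left _ hx.1) hx.2
    · intro x hx
      rw [Finset.mem_sdiff] at hx
      exact hw x (mem_union_right _ hx.1) hx.2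
  · have h1 : A.card ≤ (A \ Bad T).card + (Bad T).card := by
      have := le_card_sdiff (Bad T) A
      omega
    have h2 : (A.card : ℝ) ≤ (A \ Bad T).card + (Bad T).card := by exact_mod_cast h1
    rw [hA] at h2
    push_cast at hTbad
    linarith
  · have h1 : B.card ≤ (B \ Bad T).card + (Bad T).card := by
      have := le_card_sdiff (Bad T) B
      omega
    have h2 : (B.card : ℝ) ≤ (B \ Bad T).card + (Bad T).card := by exact_mod_cast h1
    rw [hB] at h2
    push_cast at hTbad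
    linarith

end aux

open Classical in
/-- **Positive fraction Kirchberger theorem.** For each dimension `d` there is a function `g` with
`g ε → 0` as `ε → 0⁺` such that for all `N` and all disjoint `A, B ⊆ ℝ^d` with `N` points each, in
general position (only needed if `2N < d+2`): if at least a `(1-ε)`-fraction of the `(d+2)`-subsets
of `A ∪ B` are good then some `A' ⊆ A`, `B' ⊆ B` with at least `(1 - g ε) N` points each are
separated by a hyperplane. -/
theorem result (d : ℕ) : ∃ g : ℝ → ℝ, Tendsto g (𝓝[>] 0) (𝓝 0) ∧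
    ∀ ε : ℝ, 0 < ε → ∀ (N : ℕ) (A B : Finset (EuclideanSpace ℝ (Fin d))),
      Disjoint A B → A.card = N → B.card = N →
      (d + 2 ≤ 2 * N ∨ GeneralPosition (A ∪ B)) →
      (1 - ε) * ((2 * N).choose (d + 2) : ℝ) ≤ (goodSubsets A B).card →
      ∃ A' ⊆ A, ∃ B' ⊆ B, Separated A' B' ∧
        (1 - g ε) * N ≤ A'.card ∧ (1 - g ε) * N ≤ B'.card := by
  let G : ℝ → Set ℝ := fun ε => {δ | 0 < δ ∧ Stmt d ε δ}
  have hGne : ∀ ε, (G ε).Nonempty := fun ε => ⟨1, one_pos, stmt_one le_rfl⟩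
  have hGbdd : ∀ ε, BddBelow (G ε) := fun ε => ⟨0, fun δ hδ => hδ.1.le⟩
  refine ⟨fun ε => sInf (G ε) + ε, ?_, ?_⟩
  · rw [Metric.tendsto_nhds]
    intro e he
    obtain ⟨ε₀, hε₀, hcore⟩ := core d (e / 2) (by linarith)
    have hev : ∀ᶠ ε in 𝓝[>] (0 : ℝ), ε < min ε₀ (e / 2) :=
      mem_nhdsWithin_of_mem_nhds (Iio_mem_nhds (lt_min hε₀ (by linarith)))
    filter_upwards [hev, self_mem_nhdsWithin] with ε h1 h2
    have h2' : (0 : ℝ) < ε := h2
    have h3 : sInf (G ε) ≤ e / 2 :=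
      csInf_le (hGbdd ε) ⟨by linarith, hcore ε ((h1.trans_le (min_le_left _ _)).le)⟩
    have h4 : 0 ≤ sInf (G ε) := le_csInf (hGne ε) fun δ hδ => hδ.1.le
    have h5 := h1.trans_le (min_le_right _ _)
    rw [Real.dist_eq, sub_zero, abs_of_nonneg (by linarith)]
    linarith
  · intro ε hε N A B hAB hA hB hgp hgood
    obtain ⟨δ, ⟨hδ0, hδs⟩, hδ⟩ := exists_lt_of_csInf_lt (hGne ε) (show sInf (G ε) < sInf (G ε) + ε by
      linarith)
    refine stmt_mono hδ.le hδs N A B hAB hA hB ?_ hgood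
    rcases hgp with h | h
    · exact Or.inl h
    · rcases le_or_gt (d + 2) (2 * N) with h' | h'
      · exact Or.inl h'
      · refine Or.inr ⟨h', separated_of_affineIndependent hAB ?_⟩
        refine h (A ∪ B) (Subset.refl _) ?_
        rw [card_union_of_disjoint hAB, hA, hB]
        omega

end Pool.Agent.Results.MP_ff3a4f_co.PositiveFraction
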